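import Pool.Agent.Helper62.LH.StV

/-!
Module CVD of project LH (MP_087a81_gt): sublevel sets of the exhaustion are convex and small.
-/

set_option autoImplicit false

open Set Filter Topology MeasureTheory

noncomputable section

namespace Pool.Agent.Helper60.LH

open Helper62.LH

theorem hCvd (hMet : StMet) (hGtg : StGtg) (hRgc : StRgc) : StCvd := by
  intro n g Γ hg hΓ hC p b κ r0 hb R
  refine ⟨fun x y z t hx hy ht hz => ?_, fun hR x y hx hy => ?_⟩
  · obtain ⟨c, hc, hct⟩ := hGtg n g hg hC x y z t ht hz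
    obtain ⟨v, hv, -⟩ := hRgc n g Γ hg hΓ c x y hc
    have hcv := hb.cvx c v 0 1 zero_le_one hv
    have h0 : (0 : ℝ) ∈ Icc (0 : ℝ) 1 := ⟨le_rfl, zero_le_one⟩
    have h1 : (1 : ℝ) ∈ Icc (0 : ℝ) 1 := ⟨zero_le_one, le_rfl⟩
    have h2 := hcv.2 h0 h1 (show 0 ≤ 1 - t by linarith [ht.2]) ht.1 (by ring)
    simp only [smul_eq_mul, mul_zero, mul_one, zero_add] at h2
    rw [hc.1, hc.2.1, hct] at h2
    have h3 : (1 - t) * b x + t * b y < R := by
      rcases ht.1.eq_or_lt with h | h
      · rw [← h]; linarith
      · have h4 : t * b y < t * R := mul_lt_mul_of_pos_left hy h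
        have h5 : (1 - t) * b x ≤ (1 - t) * R :=
          mul_le_mul_of_nonneg_left hx.le (by linarith [ht.2])
        linarith
    exact lt_of_le_of_lt h2 h3
  · obtain ⟨-, -, -, -, hsym, htri⟩ := hMet n g hg
    have key : ∀ x, b x < R → dg g p x ≤ R / κ := by
      intro x hx
      rw [le_div_iff₀ hb.kpos]
      by_cases h : r0 ≤ dg g p x
      · have := hb.gro x h
        linarith
      · push Not at h
        have := mul_lt_mul_of_pos_left h hb.kpos
        linarith
    have h1 := key x hx
    have h2 := key y hy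
    have h3 := htri x p y
    rw [hsym x p] at h3
    have h4 : 2 * R / κ = R / κ + R / κ := by ring
    linarith

end Pool.Agent.Helper60.LH
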