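import Pool.Agent.Helper62.LH.StG

/-!
Module LOC of project LH (MP_087a81_gt): the distance is close to the norm of `g x₀` near `x₀`.
-/

set_option autoImplicit false

open Set Filter Topology MeasureTheory

noncomputable section

namespace Pool.Agent.Helper60.LH

open Helper62.LH

lemma nr_nonneg {n : ℕ} (g : E n → Bl n) (x v : E n) : 0 ≤ nr g x v := Real.sqrt_nonneg _

lemma gpos {n : ℕ} {g : E n → Bl n} (hg : IsMet g) (x v : E n) : 0 ≤ g x v v := by
  by_cases h : v = 0
  · rw [h]; simp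
  · exact (hg.pos x v h).le

lemma nr_sq {n : ℕ} {g : E n → Bl n} (hg : IsMet g) (x v : E n) : nr g x v ^ 2 = g x v v :=
  Real.sq_sqrt (gpos hg x v)

/-- Cauchy-Schwarz -/
lemma cs {n : ℕ} {g : E n → Bl n} (hg : IsMet g) (x u v : E n) :
    g x u v ≤ nr g x u * nr g x v := by
  by_cases hv : v = 0
  · rw [hv]
    simp [nr]
  have hp := hg.pos x v hv
  have h1 : (g x u v) ^ 2 ≤ g x u u * g x v v := by
    have h2 := gpos hg x (u - (g x u v / g x v v) • v)
    have h3 : g x (u - (g x u v / g x v v) • v) (u - (g x u v / g x v v) • v) =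
        g x u u - (g x u v) ^ 2 / g x v v := by
      simp only [map_sub, map_smul, _root_.sub_apply, _root_.smul_apply, smul_eq_mul]
      rw [hg.symm x v u]
      field_simp
      ring
    rw [h3] at h2
    have h4 : (g x u v) ^ 2 / g x v v ≤ g x u u := by linarith
    rwa [div_le_iff₀ hp] at h4
  have h5 : nr g x u * nr g x v = √(g x u u * g x v v) := by
    unfold nr
    rw [← Real.sqrt_mul (gpos hg x u)]
  rw [h5]
  exact (le_abs_self _).trans (Real.abs_le_sqrt h1)

lemma nr_cont {n : ℕ} {g : E n → Bl n} (hg : IsMet g) {c : ℝ → E n} (hc : ContDiff ℝ 1 c) :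
    Continuous fun t => nr g (c t) (deriv c t) := by
  have h1 : Continuous c := hc.continuous
  have h2 : Continuous (deriv c) := hc.continuous_deriv le_rfl
  have h3 : Continuous fun t => g (c t) := hg.smooth.continuous.comp h1
  exact ((h3.clm_apply h2).clm_apply h2).sqrt

lemma nr_cont0 {n : ℕ} {g : E n → Bl n} (x₀ : E n) {c : ℝ → E n} (hc : ContDiff ℝ 1 c) :
    Continuous fun t => nr g x₀ (deriv c t) := by
  have h2 : Continuous (deriv c) := hc.continuous_deriv le_rfl
  exact (((g x₀).continuous.comp h2).clm_apply h2).sqrt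

/-- the length of a curve which stays near `x₀` -/
lemma lenA {n : ℕ} {g : E n → Bl n} (hg : IsMet g) (x₀ : E n) (ε T : ℝ) (hε : ε < 1) (hT : 0 ≤ T)
    {c : ℝ → E n} (hc : ContDiff ℝ 1 c)
    (h : ∀ t ∈ Ioo 0 T, (1 - ε) * nr g x₀ (deriv c t) ≤ nr g (c t) (deriv c t)) :
    (1 - ε) * nr g x₀ (c T - c 0) ≤ ∫ t in (0 : ℝ)..T, nr g (c t) (deriv c t) := by
  have hd : Continuous (deriv c) := hc.continuous_deriv le_rfl
  have hI : ∫ t in (0 : ℝ)..T, deriv c t = c T - c 0 :=
    intervalIntegral.integral_deriv_eq_sub (fun t _ => (hc.differentiable one_ne_zero).differentiableAt)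
      (hd.intervalIntegrable _ _)
  set w := c T - c 0 with hw
  have h1 : nr g x₀ w ≤ ∫ t in (0 : ℝ)..T, nr g x₀ (deriv c t) := by
    rcases (nr_nonneg g x₀ w).eq_or_lt with h0 | h0
    · rw [← h0]
      exact intervalIntegral.integral_nonneg hT fun t _ => nr_nonneg _ _ _
    · have h2 : g x₀ w w = ∫ t in (0 : ℝ)..T, g x₀ w (deriv c t) := by
        have h3 := (g x₀ w).intervalIntegral_comp_comm (hd.intervalIntegrable (μ := volume) 0 T)
        rw [h3, hI]
      have h4 : ∫ t in (0 : ℝ)..T, g x₀ w (deriv c t) ≤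
          ∫ t in (0 : ℝ)..T, nr g x₀ w * nr g x₀ (deriv c t) := by
        refine intervalIntegral.integral_mono_on hT ?_ ?_ fun t _ => cs hg x₀ w _
        · exact ((g x₀ w).continuous.comp hd).intervalIntegrable _ _
        · exact (continuous_const.mul (nr_cont0 x₀ hc)).intervalIntegrable _ _
      rw [← h2, intervalIntegral.integral_const_mul, ← nr_sq hg, pow_two] at h4
      exact le_of_mul_le_mul_left h4 h0
  refine (mul_le_mul_of_nonneg_left h1 (by linarith)).trans ?_
  rw [← intervalIntegral.integral_const_mul]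
  exact intervalIntegral.integral_mono_on_of_le_Ioo hT
    ((continuous_const.mul (nr_cont0 x₀ hc)).intervalIntegrable _ _)
    ((nr_cont hg hc).intervalIntegrable _ _) h

theorem hLoc (hCmp : StCmp) (hMet : StMet) : StLoc := by
  intro n g hg x₀ ε hε hε1
  obtain ⟨m, M, hm, hM, hmM⟩ := hCmp n g hg {x₀} isCompact_singleton
  have hmM' := hmM x₀ rfl
  obtain ⟨hP1, hP2, -, -, -, -⟩ := hMet n g hg
  -- the first claim with a radius ρ
  have hcont : ContinuousAt g x₀ := hg.smooth.continuous.continuousAt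
  obtain ⟨ρ, hρ, hρc⟩ := Metric.mem_nhds_iff.1
    (hcont (Metric.ball_mem_nhds (g x₀) (show 0 < ε * m by positivity)))
  have hfirst : ∀ x ∈ Metric.ball x₀ ρ, ∀ v, (1 - ε) * nr g x₀ v ≤ nr g x v ∧
      nr g x v ≤ (1 + ε) * nr g x₀ v := by
    intro x hx v
    have h1 : |g x v v - g x₀ v v| ≤ ε * g x₀ v v := by
      have h2 : ‖g x - g x₀‖ ≤ ε * m := by
        have := hρc hx
        have e := @dist_eq_norm (Bl n) _ (g x) (g x₀)
        exact e.symm.le.trans (le_of_lt this)
      have h3 : g x v v - g x₀ v v = (g x - g x₀) v v := by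
        simp only [_root_.sub_apply]
      rw [h3, ← Real.norm_eq_abs]
      calc ‖(g x - g x₀) v v‖ ≤ ‖g x - g x₀‖ * ‖v‖ * ‖v‖ := (g x - g x₀).le_opNorm₂ v v
        _ ≤ ε * m * ‖v‖ * ‖v‖ := by gcongr
        _ = ε * (m * ‖v‖ ^ 2) := by ring
        _ ≤ ε * g x₀ v v := by
          have := (hmM' v).1
          gcongr
    have h0 := gpos hg x₀ v
    obtain ⟨h4, h5⟩ := abs_le.1 h1
    constructor
    · refine Real.le_sqrt_of_sq_le ?_
      rw [mul_pow, nr_sq hg]
      nlinarith
    · refine Real.sqrt_le_iff.2 ⟨mul_nonneg (by linarith) (nr_nonneg _ _ _), ?_⟩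
      rw [mul_pow, nr_sq hg]
      nlinarith
  set m₀ := √m with hm₀
  set M₀ := √M with hM₀
  have hm₀p : 0 < m₀ := Real.sqrt_pos.2 hm
  have hM₀p : 0 < M₀ := Real.sqrt_pos.2 hM
  have hlow : ∀ v, m₀ * ‖v‖ ≤ nr g x₀ v := by
    intro v
    refine Real.le_sqrt_of_sq_le ?_
    rw [mul_pow, hm₀, Real.sq_sqrt hm.le]
    exact (hmM' v).1
  have hup : ∀ v, nr g x₀ v ≤ M₀ * ‖v‖ := by
    intro v
    refine Real.sqrt_le_iff.2 ⟨by positivity, ?_⟩
    rw [mul_pow, hM₀, Real.sq_sqrt hM.le]
    exact (hmM' v).2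
  set r := m₀ * ρ / (2 * (m₀ + 2 * M₀)) with hr
  have hrp : 0 < r := by positivity
  have hreq : 2 * (m₀ * r + 2 * M₀ * r) = m₀ * ρ := by
    rw [hr]
    field_simp
  have hr1 : 2 * M₀ * r ≤ m₀ * (ρ - r) := by
    have : 0 < m₀ * ρ := by positivity
    have h1 : m₀ * (ρ - r) = m₀ * ρ - m₀ * r := by ring
    rw [h1]
    nlinarith
  have hrρ : r < ρ := by
    have h1 : 0 < m₀ * (ρ - r) := lt_of_lt_of_le (by positivity) hr1
    have := (mul_pos_iff_of_pos_left hm₀p).1 h1
    linarith
  have hsub : Metric.ball x₀ r ⊆ Metric.ball x₀ ρ := Metric.ball_subset_ball hrρ.le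
  refine ⟨r, hrp, fun x hx => hfirst x (hsub hx), fun y hy z hz => ⟨?_, ?_⟩⟩
  · -- lower bound
    refine le_of_forall_pos_le_add fun η hη => ?_
    obtain ⟨c, hc, hc0, hc1, hlen⟩ := hP2 y z η hη
    refine le_trans ?_ hlen.le
    unfold len
    have hnc := nr_cont hg hc
    by_cases hex : ∃ t ∈ Icc (0 : ℝ) 1, ρ ≤ ‖c t - x₀‖
    · -- first exit time
      have hcl : IsClosed {t : ℝ | ρ ≤ ‖c t - x₀‖} :=
        isClosed_le continuous_const ((hc.continuous.sub continuous_const).norm)
      have hcpt : IsCompact (Icc (0 : ℝ) 1 ∩ {t | ρ ≤ ‖c t - x₀‖}) := isCompact_Icc.inter_right hcl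
      obtain ⟨t₀, ht₀, ht₀'⟩ := hex
      obtain ⟨T, ⟨hT1, hT2⟩, hTle⟩ := hcpt.exists_isLeast ⟨t₀, ht₀, ht₀'⟩
      have hA := lenA hg x₀ ε T hε1 hT1.1 hc (fun t ht => by
        refine (hfirst (c t) ?_ _).1
        rw [Metric.mem_ball, dist_eq_norm]
        by_contra hcon
        push Not at hcon
        have := hTle ⟨⟨ht.1.le, ht.2.le.trans hT1.2⟩, hcon⟩
        linarith [ht.2])
      have hsplit : (∫ t in (0 : ℝ)..T, nr g (c t) (deriv c t)) +
          ∫ t in T..1, nr g (c t) (deriv c t) = ∫ t in (0 : ℝ)..1, nr g (c t) (deriv c t) :=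
        intervalIntegral.integral_add_adjacent_intervals (hnc.intervalIntegrable _ _)
          (hnc.intervalIntegrable _ _)
      have hrest : 0 ≤ ∫ t in T..1, nr g (c t) (deriv c t) :=
        intervalIntegral.integral_nonneg hT1.2 fun t _ => nr_nonneg _ _ _
      rw [hc0] at hA
      have h1 : nr g x₀ (z - y) ≤ nr g x₀ (c T - y) := by
        have hzy : ‖z - y‖ ≤ 2 * r := by
          have h2 : z - y = (z - x₀) - (y - x₀) := by abel
          rw [h2]
          refine (norm_sub_le _ _).trans ?_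
          have h3 : ‖z - x₀‖ < r := by rw [← dist_eq_norm]; exact hz
          have h4 : ‖y - x₀‖ < r := by rw [← dist_eq_norm]; exact hy
          linarith
        have hTy : ρ - r ≤ ‖c T - y‖ := by
          have h2 : c T - x₀ = (c T - y) + (y - x₀) := by abel
          have h3 : ‖c T - x₀‖ ≤ ‖c T - y‖ + ‖y - x₀‖ := by
            rw [h2]
            exact norm_add_le _ _
          have h4 : ‖y - x₀‖ < r := by rw [← dist_eq_norm]; exact hy
          have h5 : ρ ≤ ‖c T - x₀‖ := hT2
          linarith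
        calc nr g x₀ (z - y) ≤ M₀ * ‖z - y‖ := hup _
          _ ≤ M₀ * (2 * r) := mul_le_mul_of_nonneg_left hzy hM₀p.le
          _ = 2 * M₀ * r := by ring
          _ ≤ m₀ * (ρ - r) := hr1
          _ ≤ m₀ * ‖c T - y‖ := mul_le_mul_of_nonneg_left hTy hm₀p.le
          _ ≤ nr g x₀ (c T - y) := hlow _
      have h2 := mul_le_mul_of_nonneg_left h1 (show 0 ≤ 1 - ε by linarith)
      linarith
    · push Not at hex
      have hA := lenA hg x₀ ε 1 hε1 zero_le_one hc (fun t ht => by
        refine (hfirst (c t) ?_ _).1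
        rw [Metric.mem_ball, dist_eq_norm]
        exact hex t ⟨ht.1.le, ht.2.le⟩)
      rwa [hc0, hc1] at hA
  · -- upper bound: the segment
    set c : ℝ → E n := fun t => y + t • (z - y) with hcdef
    have hc : ContDiff ℝ 1 c := by
      rw [hcdef]
      fun_prop
    have hcd : ∀ t, deriv c t = z - y := by
      intro t
      have h1 : HasDerivAt c ((1 : ℝ) • (z - y)) t := by
        have := ((hasDerivAt_id t).smul_const (z - y)).const_add y
        exact this
      rw [h1.deriv, one_smul]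
    have h1 := hP1 c hc 0 1 zero_le_one
    have hc0 : c 0 = y := by simp [hcdef]
    have hc1 : c 1 = z := by simp [hcdef]
    rw [hc0, hc1] at h1
    refine h1.trans ?_
    have h2 : ∫ τ in (0 : ℝ)..1, nr g (c τ) (deriv c τ) ≤
        ∫ _τ in (0 : ℝ)..1, (1 + ε) * nr g x₀ (z - y) := by
      refine intervalIntegral.integral_mono_on zero_le_one ((nr_cont hg hc).intervalIntegrable _ _)
        (continuous_const.intervalIntegrable _ _) fun t ht => ?_
      rw [hcd]
      refine (hfirst (c t) (hsub ?_) _).2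
      have hconv := convex_ball x₀ r
      have h3 := hconv hy hz (show 0 ≤ 1 - t by linarith [ht.2]) ht.1 (by ring)
      have h4 : c t = (1 - t) • y + t • z := by
        rw [hcdef]
        simp only [smul_sub, sub_smul, one_smul]
        abel
      rw [h4]
      exact h3
    rw [intervalIntegral.integral_const, sub_zero, one_smul] at h2
    exact h2

end Pool.Agent.Helper60.LH
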